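import Pool.Agent.Helper91.FS.Goals2

/-! # Packet FS-MDS (MP_0130f7_co): the slack at a level with two weights -/

set_option autoImplicit false

namespace Pool.Agent.Helper20.FS

open Finset
open Pool.Agent.Helper47.SR (lev up dn)

lemma ch (n l : ℕ) : ∀ q, q ≤ n →
    (n + 1).choose (l + 1) ≤ (n + 1 - q).choose (l + 1) + q * n.choose l := by
  intro q
  induction q with
  | zero => intro _; simp
  | succ q ih =>
    intro hq
    have h1 := ih (by omega)
    have h2 : n + 1 - q = (n + 1 - (q + 1)) + 1 := by omega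
    have h5 : (n + 1 - (q + 1) + 1).choose (l + 1) =
        (n + 1 - (q + 1)).choose l + (n + 1 - (q + 1)).choose (l + 1) := Nat.choose_succ_succ _ _
    rw [h2, h5] at h1
    have h3 : (n + 1 - (q + 1)).choose l ≤ n.choose l := Nat.choose_le_choose l (by omega)
    have h4 : (q + 1) * n.choose l = q * n.choose l + n.choose l := by ring
    rw [h4]
    omega

lemma ch2 (n l q : ℕ) (hn : 1 ≤ n) (h : 5 * ((l + 1) * q) ≤ n) :
    4 * n.choose (l + 1) ≤ 5 * (n - q).choose (l + 1) := by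
  obtain ⟨k, rfl⟩ : ∃ k, n = k + 1 := ⟨n - 1, by omega⟩
  have hq : q ≤ k := by
    have h0 : q ≤ (l + 1) * q := Nat.le_mul_of_pos_left q (by omega)
    omega
  have h1 := ch k l q hq
  have h2 := Nat.add_one_mul_choose_eq k l
  have h3 : (k + 1) * (4 * (k + 1).choose (l + 1)) ≤
      (k + 1) * (5 * (k + 1 - q).choose (l + 1)) := by
    have h4 : (k + 1) * (k + 1).choose (l + 1) ≤
        (k + 1) * (k + 1 - q).choose (l + 1) + q * ((k + 1) * k.choose l) := by
      calc (k + 1) * (k + 1).choose (l + 1)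
          ≤ (k + 1) * ((k + 1 - q).choose (l + 1) + q * k.choose l) :=
            Nat.mul_le_mul_left _ h1
        _ = _ := by ring
    rw [h2] at h4
    have h5 : 5 * ((l + 1) * q) * (k + 1).choose (l + 1) ≤ (k + 1) * (k + 1).choose (l + 1) :=
      Nat.mul_le_mul_right _ h
    nlinarith
  exact Nat.le_of_mul_le_mul_left h3 (by omega)

lemma dc {n l : ℕ} (w : Finset (Fin n) → ℕ) :
    ∑ T ∈ lev n l, ∑ x ∈ univ \ T, w (insert x T) = (l + 1) * ∑ A ∈ lev n (l + 1), w A := by
  have h1 : ∑ A ∈ lev n (l + 1), ∑ a ∈ A, w A = (l + 1) * ∑ A ∈ lev n (l + 1), w A := by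
    rw [mul_sum]
    refine sum_congr rfl fun A hA => ?_
    rw [sum_const, (mem_powersetCard.1 hA).2, smul_eq_mul]
  rw [← h1, sum_sigma', sum_sigma']
  refine sum_bij' (fun p _ => ⟨insert p.2 p.1, p.2⟩) (fun p _ => ⟨p.1.erase p.2, p.2⟩)
    ?_ ?_ ?_ ?_ ?_
  · rintro ⟨T, x⟩ hp
    simp only [mem_sigma, mem_powersetCard, mem_sdiff, mem_univ, true_and] at hp ⊢
    refine ⟨⟨subset_univ _, ?_⟩, mem_insert_self _ _⟩
    rw [card_insert_of_notMem hp.2, hp.1.2]
  · rintro ⟨A, a⟩ hp
    simp only [mem_sigma, mem_powersetCard, mem_sdiff, mem_univ, true_and] at hp ⊢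
    refine ⟨⟨subset_univ _, ?_⟩, notMem_erase _ _⟩
    rw [card_erase_of_mem hp.2, hp.1.2]
    rfl
  · rintro ⟨T, x⟩ hp
    simp only [mem_sigma, mem_sdiff] at hp
    simp only [Sigma.mk.injEq, heq_eq_eq, and_true]
    exact erase_insert hp.2.2
  · rintro ⟨A, a⟩ hp
    simp only [mem_sigma] at hp
    simp only [Sigma.mk.injEq, heq_eq_eq, and_true]
    exact insert_erase hp.2
  · rintro ⟨T, x⟩ hp
    rfl

lemma num (m n y s U E C V q d : ℤ) (hm1 : 1 ≤ m) (hn : 100 * m ≤ n) (hs0 : 0 ≤ s) (hy0 : 0 ≤ y)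
    (hd0 : 0 ≤ d) (hV0 : 0 ≤ V) (hC0 : 0 ≤ C) (hq0 : 0 ≤ q)
    (hb : (m + 1) * (n - (m - 1) + d) * E + (d + 1) * U ≤
      (n - m) * (n - (m - 1)) * (y + s) + (d + 1) * E)
    (hsz : 20 * (y + s) ≤ 10 * (C + V) + C) (hV1 : (n - (m - 1)) * V = C * d)
    (hy1 : y + V ≤ C + s) (hq2 : n ≤ 5 * (m * q) + 5 * m)
    (key : 5 * y ≤ 4 * C → (m + 1) * E ≤ (n - q - m) * y)
    (hk2 : (n - m) * y ≤ (m + 1) * U) :
    200 * m ^ 3 * ((m + 1) * (n - (m - 1) + d) * E) + n ^ 2 * y ≤
      200 * m ^ 3 * ((n - m) * (n - (m - 1)) * (y + s)) := by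
  have hn0 : 0 ≤ n := by linarith
  have hm0 : 0 ≤ m := by linarith
  rcases le_or_gt n (12 * (m * d)) with hc | hc
  · have hk := key (by linarith)
    have hA : q * y ≤ (m + 1) * (U - E) := by linarith
    have hqy : 0 ≤ q * y := mul_nonneg hq0 hy0
    have hA0 : 0 ≤ U - E := nonneg_of_mul_nonneg_right (hqy.trans hA) (by linarith)
    have h1 : q * y ≤ 2 * (m * (U - E)) := by
      have h0 : (m + 1) * (U - E) ≤ (2 * m) * (U - E) :=
        mul_le_mul_of_nonneg_right (by linarith) hA0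
      linarith
    have h2 : 19 * n ≤ 100 * (m * q) := by linarith
    have h3 : 19 * n * y ≤ 200 * (m * (m * (U - E))) := by
      have h4 : 19 * n * y ≤ 100 * (m * q) * y := mul_le_mul_of_nonneg_right h2 hy0
      have h5 : m * (q * y) ≤ m * (2 * (m * (U - E))) := mul_le_mul_of_nonneg_left h1 hm0
      linarith
    have h6 : n * (19 * n * y) ≤ 12 * (m * (d + 1)) * (200 * (m * (m * (U - E)))) := by
      have h7 : n ≤ 12 * (m * (d + 1)) := by linarith
      have h8 : 0 ≤ 19 * n * y := by positivity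
      have h9 : 0 ≤ 12 * (m * (d + 1)) := by positivity
      exact mul_le_mul h7 h3 h8 h9
    have h10 : n ^ 2 * y ≤ 200 * m ^ 3 * ((d + 1) * (U - E)) := by
      have h11 : 0 ≤ n ^ 2 * y := by positivity
      have h12 : 12 * (m * (d + 1)) * (200 * (m * (m * (U - E)))) =
        12 * (200 * m ^ 3 * ((d + 1) * (U - E))) := by ring
      have h13 : n * (19 * n * y) = 19 * (n ^ 2 * y) := by ring
      rw [h12, h13] at h6
      linarith
    have h12 : 0 ≤ 200 * m ^ 3 := by positivity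
    have h13 := mul_le_mul_of_nonneg_left hb h12
    linarith
  · have hnl : 99 * n ≤ 100 * (n - (m - 1)) := by linarith
    have hV2 : 11 * V ≤ C := by
      have h1 : 99 * n * (12 * m * V) ≤ 100 * (n - (m - 1)) * (12 * m * V) :=
        mul_le_mul_of_nonneg_right hnl (by positivity)
      have h2 : 100 * (n - (m - 1)) * (12 * m * V) = 100 * (C * (12 * (m * d))) := by
        calc 100 * (n - (m - 1)) * (12 * m * V) = 100 * (12 * m) * ((n - (m - 1)) * V) := by ring
          _ = _ := by rw [hV1]; ring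
      have h3 : C * (12 * (m * d)) ≤ C * n := mul_le_mul_of_nonneg_left hc.le hC0
      have h4 : n * V ≤ n * (m * V) := by
        have h5 : 1 * V ≤ m * V := mul_le_mul_of_nonneg_right hm1 hV0
        rw [one_mul] at h5
        exact mul_le_mul_of_nonneg_left h5 hn0
      have hnC : 0 ≤ n * C := mul_nonneg hn0 hC0
      have h6 : n * (11 * V) ≤ n * C := by
        rw [h2] at h1
        linarith
      exact le_of_mul_le_mul_left h6 (by linarith)
    have hk := key (by linarith)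
    have hD : 0 ≤ n - (m - 1) + d := by linarith
    have h1 : (m + 1) * (n - (m - 1) + d) * E ≤ (n - (m - 1) + d) * ((n - q - m) * y) := by
      have := mul_le_mul_of_nonneg_left hk hD
      linarith
    have h2 : n ^ 2 ≤ 10 * m * ((n - m) * (n - (m - 1)) - (n - (m - 1) + d) * (n - q - m)) := by
      have h3 : (n - m) * (n - (m - 1)) - (n - (m - 1) + d) * (n - q - m) =
        (n - (m - 1)) * q - d * (n - q - m) := by ring
      rw [h3]
      have h4 : 0 ≤ d * (q + m) := by positivity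
      have h5 : 99 * n * (m * q) ≤ 100 * (n - (m - 1)) * (m * q) :=
        mul_le_mul_of_nonneg_right hnl (by positivity)
      have h6 : n * (19 * n) ≤ n * (100 * (m * q)) :=
        mul_le_mul_of_nonneg_left (by linarith) hn0
      have h7 : n * (12 * (m * d)) ≤ n * n := mul_le_mul_of_nonneg_left hc.le hn0
      have h8 : 0 ≤ m * (d * (q + m)) := by positivity
      have h9 : 0 ≤ n * n := mul_nonneg hn0 hn0
      have h10 : 10 * m * ((n - (m - 1)) * q - d * (n - q - m)) =
        10 * ((n - (m - 1)) * (m * q)) - 10 * (n * (m * d)) + 10 * (m * (d * (q + m))) := by ring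
      rw [h10, pow_two]
      linarith
    have h3 : 0 ≤ 200 * m ^ 3 := by positivity
    have h4 := mul_le_mul_of_nonneg_left h1 h3
    have h5 : n ^ 2 * y ≤
        10 * m * ((n - m) * (n - (m - 1)) - (n - (m - 1) + d) * (n - q - m)) * y :=
      mul_le_mul_of_nonneg_right h2 hy0
    have h6 : 0 ≤ ((n - m) * (n - (m - 1)) - (n - (m - 1) + d) * (n - q - m)) := by
      have h9 : 0 ≤ n ^ 2 := by positivity
      exact nonneg_of_mul_nonneg_right (h9.trans h2) (by positivity)
    have h7 : 10 * m * ((n - m) * (n - (m - 1)) - (n - (m - 1) + d) * (n - q - m)) * y ≤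
        200 * m ^ 3 * ((n - m) * (n - (m - 1)) - (n - (m - 1) + d) * (n - q - m)) * y := by
      apply mul_le_mul_of_nonneg_right _ hy0
      apply mul_le_mul_of_nonneg_right _ h6
      have h9 : 1 * 1 ≤ m * m := mul_le_mul hm1 hm1 (by norm_num) hm0
      have h10 : m * (1 * 1) ≤ m * (m * m) := mul_le_mul_of_nonneg_left h9 hm0
      have h11 : m ^ 3 = m * (m * m) := by ring
      rw [h11]
      linarith
    have h8 : 0 ≤ 200 * m ^ 3 * ((n - m) * (n - (m - 1)) * s) := by
      have : 0 ≤ n - m := by linarith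
      have : 0 ≤ n - (m - 1) := by linarith
      positivity
    linarith

theorem goal_MDS (hA : Pool.Agent.Helper47.SR.Goal_KKA) (hB : Pool.Agent.Helper47.SR.Goal_KKB)
    (hM : Pool.Agent.Helper91.FS.Goal_MDA) : Pool.Agent.Helper91.FS.Goal_MDS := by
  intro l
  refine ⟨100 * (l + 1), fun n hn d w hw Y hY hsz => ?_⟩
  obtain ⟨-, hb⟩ := hM n l d w (by omega) hw Y hY
  obtain ⟨hw1, hd⟩ := hw
  set y : ℕ := #Y with hy
  set s : ℕ := ∑ x ∈ Y, w x with hs
  set U : ℕ := #(up (l + 1) Y) with hU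
  set E : ℕ := #(dn (l + 1) Y) with hE
  set C : ℕ := n.choose (l + 1) with hC
  set V : ℕ := ∑ x ∈ lev n (l + 1), w x with hV
  have hsum : ∀ F : Finset (Finset (Fin n)), ∑ A ∈ F, (1 + w A) = #F + ∑ A ∈ F, w A := by
    intro F
    rw [sum_add_distrib, card_eq_sum_ones]
  have hlev : #(lev n (l + 1)) = C := by
    rw [card_powersetCard, card_univ, Fintype.card_fin]
  rw [hsum, hsum, hlev, ← hy, ← hs, ← hV] at hsz
  rw [hsum, ← hy, ← hs] at hb ⊢
  have hsy : s ≤ y := by
    rw [hs, hy, card_eq_sum_ones]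
    exact sum_le_sum fun x _ => hw1 x
  -- the total of `w`
  have hV1 : (n - l) * V = C * d := by
    have h1 : (l + 1) * V = n.choose l * d := by
      rw [hV, ← dc w, sum_congr rfl hd, sum_const, card_powersetCard, card_univ,
        Fintype.card_fin, smul_eq_mul]
    have h2 : C * (l + 1) = n.choose l * (n - l) := Nat.choose_succ_right_eq n l
    have h3 : (l + 1) * ((n - l) * V) = (l + 1) * (C * d) := by
      calc (l + 1) * ((n - l) * V) = (n - l) * ((l + 1) * V) := by ring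
        _ = (n.choose l * (n - l)) * d := by rw [h1]; ring
        _ = (l + 1) * (C * d) := by rw [← h2]; ring
    exact Nat.eq_of_mul_eq_mul_left (by omega) h3
  have hy1 : y + V ≤ C + s := by
    have h1 : V = ∑ x ∈ lev n (l + 1) \ Y, w x + ∑ x ∈ Y, w x := (sum_sdiff hY).symm
    have h2 : #(lev n (l + 1)) = #(lev n (l + 1) \ Y) + #Y :=
      (card_sdiff_add_card_eq_card hY).symm
    have h3 : ∑ x ∈ lev n (l + 1) \ Y, w x ≤ #(lev n (l + 1) \ Y) := by
      rw [card_eq_sum_ones]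
      exact sum_le_sum fun x _ => hw1 x
    rw [hlev] at h2
    omega
  -- the number `z`
  obtain ⟨q, hq⟩ : ∃ q, q = n / (5 * (l + 1)) := ⟨_, rfl⟩
  have hq1 : 5 * ((l + 1) * q) ≤ n := by
    have := Nat.mul_div_le n (5 * (l + 1))
    rw [← hq] at this
    linarith
  have hq2 : n < 5 * ((l + 1) * q) + 5 * (l + 1) := by
    have := Nat.lt_mul_div_succ n (show 0 < 5 * (l + 1) by omega)
    rw [← hq] at this
    linarith
  have hql : q ≤ (l + 1) * q := Nat.le_mul_of_pos_left q (by omega)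
  have hzl : l + 1 ≤ n - q := by omega
  have hch := ch2 n l q (by omega) hq1
  rw [← hC] at hch
  -- KKA and KKB
  have key : 5 * y ≤ 4 * C → (l + 2) * E ≤ (n - q - (l + 1)) * y := by
    intro h
    exact hA n (l + 1) (n - q) (by omega) hzl Y hY (by omega)
  have hk2 : (n - (l + 1)) * y ≤ (l + 2) * U := by
    have h1 : #Y ≤ n.choose (n - (l + 1)) := by
      rw [Nat.choose_symm (by omega), ← hC, ← hlev]
      exact card_le_card hY
    have h2 := hB n (l + 1) n (by omega) (by omega) Y hY h1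
    have h3 : n - (n - (l + 1)) + 1 = l + 2 := by omega
    rw [h3] at h2
    exact h2
  -- integers
  obtain ⟨m, hm⟩ : ∃ m : ℤ, m = (l : ℤ) + 1 := ⟨_, rfl⟩
  have hm1 : (1 : ℤ) ≤ m := by omega
  have c1 : ((n - l : ℕ) : ℤ) = (n : ℤ) - l := Nat.cast_sub (by omega)
  have c2 : ((n - (l + 1) : ℕ) : ℤ) = (n : ℤ) - (l + 1) := by
    rw [Nat.cast_sub (by omega)]; push_cast; ring
  have c3 : ((n - q - (l + 1) : ℕ) : ℤ) = (n : ℤ) - q - (l + 1) := by
    rw [Nat.cast_sub (by omega), Nat.cast_sub (by omega)]; push_cast; ring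
  have hs0 : (0 : ℤ) ≤ s := Int.natCast_nonneg _
  have hy0 : (0 : ℤ) ≤ y := Int.natCast_nonneg _
  have hd0 : (0 : ℤ) ≤ d := Int.natCast_nonneg _
  have hV0 : (0 : ℤ) ≤ V := Int.natCast_nonneg _
  have hC0 : (0 : ℤ) ≤ C := Int.natCast_nonneg _
  have hE0 : (0 : ℤ) ≤ E := Int.natCast_nonneg _
  have hq0 : (0 : ℤ) ≤ q := Int.natCast_nonneg _
  have hl0 : (0 : ℤ) ≤ l := Int.natCast_nonneg _
  zify [c1, c2, c3] at hn hb hsz hsy hV1 hy1 hq1 hq2 key hk2 ⊢
  clear_value y s U E C V
  clear hA hB hM hY hw1 hd hsum hlev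
  have hl : (l : ℤ) = m - 1 := by omega
  have e1 : m - 1 + 1 = m := by ring
  have e2 : m - 1 + 2 = m + 1 := by ring
  rw [hl] at hn hb hV1 hq2 key hk2 ⊢
  rw [e1] at hn hb hq2 key hk2 ⊢
  rw [e2] at hb key hk2 ⊢
  exact num m n y s U E C V q d hm1 hn hs0 hy0 hd0 hV0 hC0 hq0 hb hsz hV1 hy1 hq2.le key hk2

end Pool.Agent.Helper20.FS
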